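import Mathlib
import Pool.Agent.H518R3.RD.Defs

set_option autoImplicit false

open scoped ComplexOrder InnerProductSpace Topology
open Filter

noncomputable section

namespace Pool.Agent.H518R3.RD.T_INF

open H759R2.Kad H710R2.DP H917R2.Tr Pool.Agent.H735G Pool.Agent.H467F Pool.Agent.H518R3.RD

variable {H : Type} [NormedAddCommGroup H] [InnerProductSpace ℂ H] [CompleteSpace H]

lemma mem_of_hasSum (M : VonNeumannAlgebra H) {f : ℕ → (H →L[ℂ] H)} {A : H →L[ℂ] H}
    (hf : HasSum f A) (h : ∀ i, f i ∈ M) : A ∈ M := by
  have h1 : A ∈ Set.centralizer (Set.centralizer (M : Set (H →L[ℂ] H))) := by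
    rw [Set.mem_centralizer_iff]
    intro c hc
    rw [Set.mem_centralizer_iff] at hc
    have h2 := hf.mul_left c
    have h3 := hf.mul_right c
    have h4 : (fun i => c * f i) = (fun i => f i * c) := by
      funext i
      exact (hc (f i) (h i)).symm
    rw [h4] at h2
    exact h2.unique h3
  have := M.centralizer_centralizer
  rw [this] at h1
  exact h1

lemma proj_norm {e : H →L[ℂ] H} (he : IsPr e) : ‖e‖ ≤ 1 := by
  have h1 : ‖e‖ * ‖e‖ = ‖e‖ := by
    have := CStarRing.norm_star_mul_self (x := e)
    rw [he.1, he.2] at this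
    exact this.symm
  by_contra h
  push Not at h
  nlinarith

lemma pi_norm {v : H →L[ℂ] H} (hv : IsPI v) : ‖v‖ ≤ 1 := by
  have he : IsPr (star v * v) := by
    refine ⟨by simp, ?_⟩
    calc star v * v * (star v * v) = star v * (v * star v * v) := by simp only [mul_assoc]
      _ = star v * v := by rw [hv]
  have h1 := proj_norm he
  rw [CStarRing.norm_star_mul_self] at h1
  nlinarith [norm_nonneg v]

theorem r_INF (hSPB : R_SPB) (hCG : R_CG) : R_INF := by
  intro H _ _ _ _ M z r V hz hV
  obtain ⟨hzp, hzM, hzc⟩ := hz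
  -- basic facts
  have hrM : r ∈ M := by
    rw [← hV.ini 0]
    exact mul_mem (star_mem (hV.mem _)) (hV.mem _)
  have hVr : ∀ i, V i * r = V i := by
    intro i
    cases i with
    | zero => exact hV.zero
    | succ i =>
      have h1 := hV.pi (i + 1)
      unfold IsPI at h1
      rw [mul_assoc, hV.ini i] at h1
      exact h1
  have hrV : ∀ i, r * star (V i) = star (V i) := by
    intro i
    have := congrArg star (hVr i)
    rw [star_mul, hV.pr.1] at this
    exact this
  have hVV : ∀ i, V i * star (V i) * V i = V i := fun i => hV.pi i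
  have hVVs : ∀ i, star (V i) * (V i * star (V i)) = star (V i) := by
    intro i
    have := congrArg star (hVV i)
    simpa [star_mul, mul_assoc] using this
  have hVz : ∀ i, star (V i) * z = star (V i) := by
    intro i
    have := congrArg star (hV.le i)
    rw [star_mul, hzp.1] at this
    exact this
  let e : ℕ → (H →L[ℂ] H) := fun i => V i * star (V i)
  have hedef : ∀ i, e i = V i * star (V i) := fun i => rfl
  have hepr : ∀ i, IsPr (e i) := by
    intro i
    refine ⟨by simp [hedef], ?_⟩
    rw [hedef]
    calc V i * star (V i) * (V i * star (V i)) = (V i * star (V i) * V i) * star (V i) := by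
          simp only [mul_assoc]
      _ = _ := by rw [hVV]
  have heV : ∀ i j, e i * V j = if i = j then V j else 0 := by
    intro i j
    split_ifs with h
    · subst h
      exact hVV i
    · rw [hedef, mul_assoc, hV.ort i j h, mul_zero]
  have hVe : ∀ i j, star (V j) * e i = if i = j then star (V j) else 0 := by
    intro i j
    have := congrArg star (heV i j)
    rw [star_mul, (hepr i).1] at this
    rw [this]
    split_ifs <;> simp
  have heort : ∀ i j, i ≠ j → e i * e j = 0 := by
    intro i j h
    rw [hedef j, ← mul_assoc, heV, if_neg h, zero_mul]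
  have hze : ∀ i, z * e i = e i := by
    intro i
    rw [hedef, ← mul_assoc, hV.le]
  have hez : ∀ i, e i * z = e i := by
    intro i
    rw [hedef, mul_assoc, hVz]
  have heM : ∀ i, e i ∈ M := fun i => mul_mem (hV.mem i) (star_mem (hV.mem i))
  -- the generating sequence
  let S : Set (H →L[ℂ] H) := {x | x ∈ M ∧ r * x = x ∧ x * r = x ∧ star x = x ∧ ‖x‖ ≤ 1}
  have hS0 : S.Nonempty := ⟨0, zero_mem M, by simp, by simp, by simp, by simp⟩
  obtain ⟨y, hyS, hy⟩ := hCG H S hS0
  have hyM : ∀ k, y k ∈ M := fun k => (hyS k).1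
  have hry : ∀ k, r * y k = y k := fun k => (hyS k).2.1
  have hyr : ∀ k, y k * r = y k := fun k => (hyS k).2.2.1
  have hysa : ∀ k, star (y k) = y k := fun k => (hyS k).2.2.2.1
  have hyn : ∀ k, ‖y k‖ ≤ 1 := fun k => (hyS k).2.2.2.2
  -- summability
  have hgeo : Summable (fun i : ℕ => (4 : ℝ) * (1 / 4 : ℝ) ^ i) :=
    (summable_geometric_of_lt_one (by norm_num) (by norm_num)).mul_left _
  have hsum : ∀ a : ℕ → (H →L[ℂ] H), (∀ i, ‖a i‖ ≤ 4) →
      Summable (fun i => ((1 / 4 : ℂ) ^ i) • a i) := by
    intro a ha
    refine Summable.of_norm_bounded hgeo ?_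
    intro i
    rw [norm_smul, norm_pow]
    have h1 : ‖(1 / 4 : ℂ)‖ = 1 / 4 := by norm_num
    rw [h1, mul_comm]
    exact mul_le_mul_of_nonneg_right (ha i) (by positivity)
  have hen : ∀ i, ‖e i‖ ≤ 1 := fun i => proj_norm (hepr i)
  have hVn : ∀ i, ‖V i‖ ≤ 1 := fun i => pi_norm (hV.pi i)
  have hVsn : ∀ i, ‖star (V i)‖ ≤ 1 := fun i => by rw [norm_star]; exact hVn i
  obtain ⟨A, hA⟩ := hsum e (fun i => (hen i).trans (by norm_num))
  let T : ℕ → (H →L[ℂ] H) := fun n =>
    (V n * star (V (n + 1)) + V (n + 1) * star (V n)) +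
      (V 1 * y n * star (V (n + 3)) + V (n + 3) * y n * star (V 1))
  have hTdef : ∀ n, T n = (V n * star (V (n + 1)) + V (n + 1) * star (V n)) +
      (V 1 * y n * star (V (n + 3)) + V (n + 3) * y n * star (V 1)) := fun n => rfl
  have hn2 : ∀ a b : H →L[ℂ] H, ‖a‖ ≤ 1 → ‖b‖ ≤ 1 → ‖a * b‖ ≤ 1 := by
    intro a b ha hb
    calc ‖a * b‖ ≤ ‖a‖ * ‖b‖ := norm_mul_le _ _
      _ ≤ 1 * 1 := mul_le_mul ha hb (norm_nonneg _) (by norm_num)
      _ = 1 := by norm_num
  have hTn : ∀ n, ‖T n‖ ≤ 4 := by
    intro n
    rw [hTdef]
    have h1 := hn2 _ _ (hVn n) (hVsn (n + 1))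
    have h2 := hn2 _ _ (hVn (n + 1)) (hVsn n)
    have h3 := hn2 _ _ (hn2 _ _ (hVn 1) (hyn n)) (hVsn (n + 3))
    have h4 := hn2 _ _ (hn2 _ _ (hVn (n + 3)) (hyn n)) (hVsn 1)
    refine (norm_add_le _ _).trans ?_
    have h5 := norm_add_le (V n * star (V (n + 1))) (V (n + 1) * star (V n))
    have h6 := norm_add_le (V 1 * y n * star (V (n + 3))) (V (n + 3) * y n * star (V 1))
    linarith
  obtain ⟨B, hB⟩ := hsum T hTn
  have hTsa : ∀ n, star (T n) = T n := by
    intro n
    rw [hTdef]
    simp only [star_add, star_mul, star_star, hysa, mul_assoc]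
    abel
  have hTM : ∀ n, T n ∈ M := by
    intro n
    refine add_mem (add_mem ?_ ?_) (add_mem ?_ ?_)
    · exact mul_mem (hV.mem _) (star_mem (hV.mem _))
    · exact mul_mem (hV.mem _) (star_mem (hV.mem _))
    · exact mul_mem (mul_mem (hV.mem _) (hyM _)) (star_mem (hV.mem _))
    · exact mul_mem (mul_mem (hV.mem _) (hyM _)) (star_mem (hV.mem _))
  have hzT : ∀ n, z * T n = T n := by
    intro n
    rw [hTdef]
    simp only [mul_add, ← mul_assoc, hV.le]
  have hsm : ∀ (c : ℂ) (x : H →L[ℂ] H), x ∈ M → c • x ∈ M := by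
    intro c x hx
    exact M.toStarSubalgebra.smul_mem hx c
  have hAM : A ∈ M := mem_of_hasSum M hA (fun i => hsm _ _ (heM i))
  have hBM : B ∈ M := mem_of_hasSum M hB (fun i => hsm _ _ (hTM i))
  have hconj : ∀ i : ℕ, star ((1 / 4 : ℂ) ^ i) = (1 / 4 : ℂ) ^ i := by
    intro i
    rw [star_pow]
    congr 1
    simp
  have hsastar : ∀ (a : ℕ → (H →L[ℂ] H)) (X : H →L[ℂ] H), (∀ i, star (a i) = a i) →
      HasSum (fun i => ((1 / 4 : ℂ) ^ i) • a i) X → star X = X := by
    intro a X ha hX
    have h1 := hX.star
    have h2 : (fun i => star (((1 / 4 : ℂ) ^ i) • a i)) = fun i => ((1 / 4 : ℂ) ^ i) • a i := by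
      funext i
      rw [star_smul, hconj, ha]
    rw [h2] at h1
    exact h1.unique hX
  have hzX : ∀ (a : ℕ → (H →L[ℂ] H)) (X : H →L[ℂ] H), (∀ i, z * (a i) = a i) →
      HasSum (fun i => ((1 / 4 : ℂ) ^ i) • a i) X → z * X = X := by
    intro a X ha hX
    have h1 := hX.mul_left z
    have h2 : (fun i => z * (((1 / 4 : ℂ) ^ i) • a i)) = fun i => ((1 / 4 : ℂ) ^ i) • a i := by
      funext i
      rw [mul_smul_comm, ha]
    rw [h2] at h1
    exact h1.unique hX
  refine ⟨A, B, hAM, hBM, hsastar e A (fun i => (hepr i).1) hA, hsastar T B hTsa hB,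
    hzX e A hze hA, hzX T B hzT hB, ?_⟩
  intro x hx
  unfold cc
  rw [Set.mem_centralizer_iff]
  intro s hs
  rw [Set.mem_centralizer_iff] at hs
  have hsA : s * A = A * s := (hs A (by simp)).symm
  have hsB : s * B = B * s := (hs B (by simp)).symm
  have hsz : s * z = z * s := (hs z (by simp)).symm
  -- s commutes with e i
  have hse : ∀ i, s * e i = e i * s := by
    intro i
    refine (hSPB H e e A hepr heort (fun i => ⟨(hepr i).1, (hepr i).2, hen i⟩) ?_ hA s hsA i).1
    intro i ξ hξ
    rw [hξ]
    nlinarith [norm_nonneg ξ]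
  -- compressions of B
  have hcomp : ∀ (i k : ℕ) (n : ℕ) (W : H →L[ℂ] H), e i * T n * e k = W →
      (∀ m, m ≠ n → e i * T m * e k = 0) → s * W = W * s := by
    intro i k n W hW h0
    have h1 : HasSum (fun m => e i * (((1 / 4 : ℂ) ^ m) • T m) * e k) (e i * B * e k) :=
      (hB.mul_left (e i)).mul_right (e k)
    have h2 : HasSum (fun m => e i * (((1 / 4 : ℂ) ^ m) • T m) * e k)
        (e i * (((1 / 4 : ℂ) ^ n) • T n) * e k) := by
      refine hasSum_single n ?_
      intro m hm
      rw [mul_smul_comm, smul_mul_assoc, h0 m hm, smul_zero]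
    have h3 : e i * B * e k = ((1 / 4 : ℂ) ^ n) • W := by
      rw [h1.unique h2, mul_smul_comm, smul_mul_assoc, hW]
    have h4 : s * (e i * B * e k) = (e i * B * e k) * s := by
      calc s * (e i * B * e k) = (s * e i) * B * e k := by simp only [mul_assoc]
        _ = e i * (s * B) * e k := by rw [hse]; simp only [mul_assoc]
        _ = e i * B * (s * e k) := by rw [hsB]; simp only [mul_assoc]
        _ = (e i * B * e k) * s := by rw [hse]; simp only [mul_assoc]
    rw [h3, mul_smul_comm, smul_mul_assoc] at h4
    have h5 : ((1 / 4 : ℂ) ^ n) ≠ 0 := by positivity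
    exact smul_right_injective _ h5 h4
  have hcut : ∀ (i k a b : ℕ) (w : H →L[ℂ] H), e i * (V a * w * star (V b)) * e k =
      if i = a ∧ k = b then V a * w * star (V b) else 0 := by
    intro i k a b w
    have h1 : e i * (V a * w * star (V b)) * e k = (e i * V a) * w * (star (V b) * e k) := by
      simp only [mul_assoc]
    rw [h1, heV, hVe]
    by_cases h2 : i = a
    · by_cases h3 : k = b
      · simp only [h2, h3, if_true, and_self]
      · simp only [h3, if_false, and_false, mul_zero]
    · simp only [h2, if_false, false_and, zero_mul]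
  have hcut1 : ∀ (i k a b : ℕ), e i * (V a * star (V b)) * e k =
      if i = a ∧ k = b then V a * star (V b) else 0 := by
    intro i k a b
    have := hcut i k a b 1
    simpa using this
  have hTcut : ∀ i k n : ℕ, e i * T n * e k =
      ((if i = n ∧ k = n + 1 then V n * star (V (n + 1)) else 0) +
        (if i = n + 1 ∧ k = n then V (n + 1) * star (V n) else 0)) +
      ((if i = 1 ∧ k = n + 3 then V 1 * y n * star (V (n + 3)) else 0) +
        (if i = n + 3 ∧ k = 1 then V (n + 3) * y n * star (V 1) else 0)) := by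
    intro i k n
    rw [hTdef, mul_add, mul_add, mul_add, add_mul, add_mul, add_mul, hcut, hcut, hcut1, hcut1]
  have hsup : ∀ i, s * (V i * star (V (i + 1))) = (V i * star (V (i + 1))) * s := by
    intro i
    refine hcomp i (i + 1) i _ ?_ ?_
    · rw [hTcut, if_pos ⟨rfl, rfl⟩, if_neg (by omega), if_neg (by omega), if_neg (by omega)]
      simp
    · intro m hm
      rw [hTcut, if_neg (by omega), if_neg (by omega), if_neg (by omega), if_neg (by omega)]
      simp
  have hsdn : ∀ i, s * (V (i + 1) * star (V i)) = (V (i + 1) * star (V i)) * s := by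
    intro i
    refine hcomp (i + 1) i i _ ?_ ?_
    · rw [hTcut, if_neg (by omega), if_pos ⟨rfl, rfl⟩, if_neg (by omega), if_neg (by omega)]
      simp
    · intro m hm
      rw [hTcut, if_neg (by omega), if_neg (by omega), if_neg (by omega), if_neg (by omega)]
      simp
  have hsyj : ∀ j, s * (V 1 * y j * star (V (j + 3))) = (V 1 * y j * star (V (j + 3))) * s := by
    intro j
    refine hcomp 1 (j + 3) j _ ?_ ?_
    · rw [hTcut, if_neg (by omega), if_neg (by omega), if_pos ⟨rfl, rfl⟩, if_neg (by omega)]
      simp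
    · intro m hm
      rw [hTcut, if_neg (by omega), if_neg (by omega), if_neg (by omega), if_neg (by omega)]
      simp
  -- products of commuting elements
  have hprod : ∀ a b : H →L[ℂ] H, s * a = a * s → s * b = b * s → s * (a * b) = (a * b) * s := by
    intro a b ha hb
    rw [← mul_assoc, ha, mul_assoc, hb, mul_assoc]
  have hini : ∀ i, 1 ≤ i → star (V i) * V i = r := by
    intro i hi
    obtain ⟨j, rfl⟩ := Nat.exists_eq_add_of_le hi
    rw [add_comm]
    exact hV.ini j
  have hs1j : ∀ j, s * (V 1 * star (V j)) = (V 1 * star (V j)) * s := by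
    intro j
    induction j with
    | zero => exact hsdn 0
    | succ j ih =>
      rcases Nat.eq_zero_or_pos j with h0 | h0
      · subst h0
        exact hse 1
      · have h1 : V 1 * star (V (j + 1)) = (V 1 * star (V j)) * (V j * star (V (j + 1))) := by
          calc V 1 * star (V (j + 1)) = V 1 * (r * star (V (j + 1))) := by rw [hrV]
            _ = V 1 * ((star (V j) * V j) * star (V (j + 1))) := by rw [hini j h0]
            _ = _ := by simp only [mul_assoc]
        rw [h1]
        exact hprod _ _ ih (hsup j)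
  have hsj1 : ∀ j, s * (V j * star (V 1)) = (V j * star (V 1)) * s := by
    intro j
    induction j with
    | zero => exact hsup 0
    | succ j ih =>
      rcases Nat.eq_zero_or_pos j with h0 | h0
      · subst h0
        exact hse 1
      · have h1 : V (j + 1) * star (V 1) = (V (j + 1) * star (V j)) * (V j * star (V 1)) := by
          calc V (j + 1) * star (V 1) = V (j + 1) * (r * star (V 1)) := by rw [hrV]
            _ = V (j + 1) * ((star (V j) * V j) * star (V 1)) := by rw [hini j h0]
            _ = _ := by simp only [mul_assoc]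
        rw [h1]
        exact hprod _ _ (hsdn j) ih
  have hsy11 : ∀ j, s * (V 1 * y j * star (V 1)) = (V 1 * y j * star (V 1)) * s := by
    intro j
    have h1 : V 1 * y j * star (V 1) = (V 1 * y j * star (V (j + 3))) * (V (j + 3) * star (V 1)) := by
      calc V 1 * y j * star (V 1) = V 1 * (y j * r) * star (V 1) := by rw [hyr]
        _ = V 1 * (y j * (star (V (j + 3)) * V (j + 3))) * star (V 1) := by
            rw [hini (j + 3) (by omega)]
        _ = _ := by simp only [mul_assoc]
    rw [h1]
    exact hprod _ _ (hsyj j) (hsj1 _)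
  -- s'
  obtain ⟨s', hs'⟩ : ∃ s', s' = star (V 1) * s * V 1 := ⟨_, rfl⟩
  have hs'y : ∀ j, y j * s' = s' * y j := by
    intro j
    have h1 : s' * y j = star (V 1) * (s * (V 1 * y j * star (V 1))) * V 1 := by
      calc s' * y j = s' * (y j * r) := by rw [hyr]
        _ = s' * (y j * (star (V 1) * V 1)) := by rw [hini 1 le_rfl]
        _ = _ := by rw [hs']; simp only [mul_assoc]
    rw [h1, hsy11]
    calc y j * s' = r * y j * s' := by rw [hry]
      _ = (star (V 1) * V 1) * y j * s' := by rw [hini 1 le_rfl]
      _ = _ := by rw [hs']; simp only [mul_assoc]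
  have hs'cc : s' ∈ Set.centralizer (Set.range y) := by
    rw [Set.mem_centralizer_iff]
    rintro _ ⟨j, rfl⟩
    exact hs'y j
  have hs'S : ∀ w ∈ S, s' * w = w * s' := by
    intro w hw
    have := hy w hw
    unfold cc at this
    rw [Set.mem_centralizer_iff] at this
    exact this s' hs'cc
  have hs'sa : ∀ w ∈ M, r * w = w → w * r = w → star w = w → s' * w = w * s' := by
    intro w hwM h1 h2 h3
    have hpos : (0 : ℝ) < 1 + ‖w‖ := by positivity
    have hw' : ((1 + ‖w‖ : ℝ) : ℂ)⁻¹ • w ∈ S := by
      refine ⟨hsm _ _ hwM, ?_, ?_, ?_, ?_⟩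
      · rw [mul_smul_comm, h1]
      · rw [smul_mul_assoc, h2]
      · rw [star_smul, h3]
        congr 1
        simp
      · rw [norm_smul, norm_inv, Complex.norm_real, Real.norm_eq_abs, abs_of_pos hpos]
        rw [inv_mul_le_iff₀ hpos]
        linarith
    have h4 := hs'S _ hw'
    rw [mul_smul_comm, smul_mul_assoc] at h4
    have h5 : ((1 + ‖w‖ : ℝ) : ℂ)⁻¹ ≠ 0 := by
      apply inv_ne_zero
      exact_mod_cast hpos.ne'
    exact smul_right_injective _ h5 h4
  have hs'M : ∀ w ∈ M, r * w = w → w * r = w → s' * w = w * s' := by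
    intro w hwM h1 h2
    have hwr : star w * r = star w := by
      have := congrArg star h1
      rwa [star_mul, hV.pr.1] at this
    have hrw : r * star w = star w := by
      have := congrArg star h2
      rwa [star_mul, hV.pr.1] at this
    have ha := hs'sa (w + star w) (add_mem hwM (star_mem hwM)) (by rw [mul_add, h1, hrw])
      (by rw [add_mul, h2, hwr]) (by rw [star_add, star_star, add_comm])
    have hb := hs'sa (Complex.I • (w - star w)) (hsm _ _ (sub_mem hwM (star_mem hwM)))
      (by rw [mul_smul_comm, mul_sub, h1, hrw]) (by rw [smul_mul_assoc, sub_mul, h2, hwr])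
      (by
        rw [star_smul, star_sub, star_star]
        simp only [Complex.star_def, Complex.conj_I, neg_smul, smul_sub]
        abel)
    rw [mul_smul_comm, smul_mul_assoc] at hb
    have hb' := smul_right_injective _ Complex.I_ne_zero hb
    rw [mul_sub, sub_mul] at hb'
    rw [mul_add, add_mul] at ha
    have hc : (2 : ℂ) • (s' * w) = (2 : ℂ) • (w * s') := by
      have h6 : s' * w + s' * w = w * s' + w * s' := by
        calc s' * w + s' * w = (s' * w + s' * star w) + (s' * w - s' * star w) := by abel
          _ = (w * s' + star w * s') + (w * s' - star w * s') := by rw [ha, hb']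
          _ = _ := by abel
      rw [two_smul, two_smul]
      exact h6
    exact smul_right_injective _ (two_ne_zero) hc
  have hsV1 : s * V 1 = V 1 * s' := by
    calc s * V 1 = s * (e 1 * V 1) := by rw [heV, if_pos rfl]
      _ = (s * e 1) * V 1 := (mul_assoc _ _ _).symm
      _ = e 1 * s * V 1 := by rw [hse]
      _ = V 1 * s' := by rw [hedef, hs']; simp only [mul_assoc]
  have hV1s : star (V 1) * s = s' * star (V 1) := by
    calc star (V 1) * s = (star (V 1) * e 1) * s := by rw [hVe, if_pos rfl]
      _ = star (V 1) * (e 1 * s) := mul_assoc _ _ _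
      _ = star (V 1) * (s * e 1) := by rw [hse]
      _ = _ := by rw [hedef, hs']; simp only [mul_assoc]
  have hs11 : ∀ w ∈ M, r * w = w → w * r = w →
      s * (V 1 * w * star (V 1)) = (V 1 * w * star (V 1)) * s := by
    intro w hwM h1 h2
    calc s * (V 1 * w * star (V 1)) = (s * V 1) * w * star (V 1) := by simp only [mul_assoc]
      _ = V 1 * (s' * w) * star (V 1) := by rw [hsV1]; simp only [mul_assoc]
      _ = V 1 * w * (s' * star (V 1)) := by rw [hs'M w hwM h1 h2]; simp only [mul_assoc]
      _ = _ := by rw [← hV1s]; simp only [mul_assoc]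
  have hsex : ∀ i j, s * (e i * x * e j) = (e i * x * e j) * s := by
    intro i j
    have hyM' : star (V i) * x * V j ∈ M := mul_mem (mul_mem (star_mem (hV.mem i)) hx) (hV.mem j)
    have h1 : r * (star (V i) * x * V j) = star (V i) * x * V j := by
      rw [← mul_assoc, ← mul_assoc, hrV]
    have h2 : (star (V i) * x * V j) * r = star (V i) * x * V j := by
      rw [mul_assoc, hVr]
    have h3 : e i * x * e j =
        (V i * star (V 1)) * (V 1 * (star (V i) * x * V j) * star (V 1)) * (V 1 * star (V j)) := by
      have h4 : (V i * star (V 1)) * (V 1 * (star (V i) * x * V j) * star (V 1)) *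
          (V 1 * star (V j)) =
          V i * (star (V 1) * V 1) * (star (V i) * x * V j) * (star (V 1) * V 1) * star (V j) := by
        simp only [mul_assoc]
      rw [h4, hini 1 le_rfl, hVr]
      have h5 : V i * (star (V i) * x * V j) * r * star (V j) =
          V i * ((star (V i) * x * V j) * r) * star (V j) := by simp only [mul_assoc]
      rw [h5, h2]
      simp only [hedef, mul_assoc]
    rw [h3]
    exact hprod _ _ (hprod _ _ (hsj1 i) (hs11 _ hyM' h1 h2)) (hs1j j)
  -- conclusion
  have hxz : z * x = x * z := hzc x hx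
  obtain ⟨D, hD⟩ : ∃ D, D = s * (z * x) - (z * x) * s := ⟨_, rfl⟩
  have hDz : D * z = D := by
    rw [hD, sub_mul]
    have h1 : s * (z * x) * z = s * (z * x) := by
      calc s * (z * x) * z = s * (z * (x * z)) := by simp only [mul_assoc]
        _ = s * (z * (z * x)) := by rw [hxz]
        _ = s * ((z * z) * x) := by simp only [mul_assoc]
        _ = _ := by rw [hzp.2]
    have h2 : (z * x) * s * z = (z * x) * s := by
      calc (z * x) * s * z = z * x * (s * z) := by simp only [mul_assoc]
        _ = (z * x) * (z * s) := by rw [hsz]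
        _ = (z * (x * z)) * s := by simp only [mul_assoc]
        _ = (z * (z * x)) * s := by rw [hxz]
        _ = ((z * z) * x) * s := by simp only [mul_assoc]
        _ = _ := by rw [hzp.2]
    rw [h1, h2]
  have hzD : z * D = D := by
    rw [hD, mul_sub]
    have h1 : z * (s * (z * x)) = s * (z * x) := by
      calc z * (s * (z * x)) = (z * s) * (z * x) := by simp only [mul_assoc]
        _ = (s * z) * (z * x) := by rw [hsz]
        _ = s * ((z * z) * x) := by simp only [mul_assoc]
        _ = _ := by rw [hzp.2]
    have h2 : z * (z * x * s) = z * x * s := by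
      calc z * (z * x * s) = (z * z) * x * s := by simp only [mul_assoc]
        _ = _ := by rw [hzp.2]
    rw [h1, h2]
  have heDe : ∀ i j, e i * D * e j = 0 := by
    intro i j
    rw [hD, mul_sub, sub_mul]
    have h1 : e i * (s * (z * x)) * e j = s * (e i * x * e j) := by
      calc e i * (s * (z * x)) * e j = (e i * s) * z * x * e j := by simp only [mul_assoc]
        _ = (s * e i) * z * x * e j := by rw [hse]
        _ = s * (e i * z) * x * e j := by simp only [mul_assoc]
        _ = _ := by rw [hez]; simp only [mul_assoc]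
    have h2 : e i * (z * x * s) * e j = (e i * x * e j) * s := by
      calc e i * (z * x * s) * e j = (e i * z) * x * (s * e j) := by simp only [mul_assoc]
        _ = _ := by rw [hez, hse]; simp only [mul_assoc]
    rw [h1, h2, hsex, sub_self]
  have heD : ∀ i, e i * D = 0 := by
    intro i
    have h1 : ∀ j, (e i * D) * V j = 0 := by
      intro j
      calc (e i * D) * V j = (e i * D) * (e j * V j) := by rw [heV, if_pos rfl]
        _ = (e i * D * e j) * V j := by simp only [mul_assoc]
        _ = 0 := by rw [heDe, zero_mul]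
    have h2 := hV.sum (e i * D) h1
    rw [mul_assoc, hDz] at h2
    exact h2
  have hDs : star D * z = 0 := by
    refine hV.sum (star D) ?_
    intro i
    have h1 : star D * e i = 0 := by
      have := congrArg star (heD i)
      rw [star_mul, (hepr i).1, star_zero] at this
      exact this
    calc star D * V i = star D * (e i * V i) := by rw [heV, if_pos rfl]
      _ = 0 := by rw [← mul_assoc, h1, zero_mul]
  have hD0 : D = 0 := by
    have h1 : star (star D * z) = z * D := by rw [star_mul, star_star, hzp.1]
    rw [hDs, star_zero, hzD] at h1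
    exact h1.symm
  rw [hD] at hD0
  exact sub_eq_zero.mp hD0

end Pool.Agent.H518R3.RD.T_INF
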